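import Pool.Agent.U501.EP.Stm
import Pool.Agent.U555.CG.Vdc

/-!
# Project EP, package MEAN: the mean of the exponential sum by the second derivative test
-/

set_option autoImplicit false

namespace Pool.Agent.U981.EP.MEAN

open MeasureTheory Set Complex Pool.Agent.U501.EP

/-- second derivative test, one-sided derivatives at the end points -/
theorem vdcW {a b l : ℝ} (hab : a ≤ b) (hl : 0 < l) {φ u v : ℝ → ℝ}
    (hφ : ∀ x ∈ Icc a b, HasDerivWithinAt φ (u x) (Icc a b) x)
    (hu : ∀ x ∈ Icc a b, HasDerivWithinAt u (v x) (Icc a b) x)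
    (hv : ContinuousOn v (Icc a b)) (hvl : ∀ x ∈ Icc a b, l ≤ v x) :
    ‖∫ x in a..b, cexp (φ x * I)‖ ≤ 8 / √l := by
  rcases hab.eq_or_lt with rfl | hlt
  · rw [intervalIntegral.integral_same, norm_zero]
    positivity
  have hφc : ContinuousOn φ (Icc a b) := fun x hx => (hφ x hx).continuousWithinAt
  have hE : ContinuousOn (fun x => cexp (φ x * I)) (Icc a b) := by
    apply ContinuousOn.cexp
    exact (Complex.continuous_ofReal.comp_continuousOn hφc).mul continuousOn_const
  have hint : ∀ c d : ℝ, a ≤ c → c ≤ d → d ≤ b →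
      IntervalIntegrable (fun x => cexp (φ x * I)) volume c d := by
    intro c d h1 h2 h3
    apply ContinuousOn.intervalIntegrable
    rw [uIcc_of_le h2]
    exact hE.mono (Icc_subset_Icc h1 h3)
  have hn : ∀ x, ‖cexp (φ x * I)‖ ≤ 1 := fun x => by
    rw [Complex.norm_exp_ofReal_mul_I]
  apply le_of_forall_pos_le_add
  intro ε hε
  obtain ⟨s, hs0, hs1, hs2⟩ : ∃ s : ℝ, 0 < s ∧ 2 * s ≤ ε ∧ 2 * s ≤ b - a :=
    ⟨min (ε / 2) ((b - a) / 2), lt_min (by linarith) (by linarith),
      by linarith [min_le_left (ε / 2) ((b - a) / 2)], by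
        linarith [min_le_right (ε / 2) ((b - a) / 2)]⟩
  have hsub : Icc (a + s) (b - s) ⊆ Icc a b := Icc_subset_Icc (by linarith) (by linarith)
  have hnh : ∀ x ∈ Icc (a + s) (b - s), Icc a b ∈ nhds x := fun x hx =>
    Icc_mem_nhds (by linarith [hx.1]) (by linarith [hx.2])
  have h1 := Pool.Agent.U555.CG.vdc (a := a + s) (b := b - s) (by linarith) hl
    (fun x hx => (hφ x (hsub hx)).hasDerivAt (hnh x hx))
    (fun x hx => (hu x (hsub hx)).hasDerivAt (hnh x hx)) (hv.mono hsub)
    (fun x hx => hvl x (hsub hx))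
  have e1 : ∫ x in a..b, cexp (φ x * I) = (∫ x in a..(a + s), cexp (φ x * I)) +
      (∫ x in (a + s)..(b - s), cexp (φ x * I)) + ∫ x in (b - s)..b, cexp (φ x * I) := by
    rw [intervalIntegral.integral_add_adjacent_intervals (hint _ _ le_rfl (by linarith) (by linarith))
      (hint _ _ (by linarith) (by linarith) (by linarith)),
      intervalIntegral.integral_add_adjacent_intervals (hint _ _ le_rfl (by linarith) (by linarith))
      (hint _ _ (by linarith) (by linarith) (by linarith))]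
  have h2 : ‖∫ x in a..(a + s), cexp (φ x * I)‖ ≤ s := by
    have := intervalIntegral.norm_integral_le_of_norm_le_const (a := a) (b := a + s) (C := 1)
      (f := fun x => cexp (φ x * I)) (fun x _ => hn x)
    rw [add_sub_cancel_left, abs_of_pos hs0, one_mul] at this
    exact this
  have h3 : ‖∫ x in (b - s)..b, cexp (φ x * I)‖ ≤ s := by
    have := intervalIntegral.norm_integral_le_of_norm_le_const (a := b - s) (b := b) (C := 1)
      (f := fun x => cexp (φ x * I)) (fun x _ => hn x)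
    rw [sub_sub_cancel, abs_of_pos hs0, one_mul] at this
    exact this
  rw [e1]
  refine (norm_add₃_le).trans ?_
  linarith

/-- the same with a second derivative of absolute value at least `l` -/
theorem vdcA {a b l : ℝ} (hab : a ≤ b) (hl : 0 < l) {φ u v : ℝ → ℝ}
    (hφ : ∀ x ∈ Icc a b, HasDerivWithinAt φ (u x) (Icc a b) x)
    (hu : ∀ x ∈ Icc a b, HasDerivWithinAt u (v x) (Icc a b) x)
    (hv : ContinuousOn v (Icc a b)) (hvl : ∀ x ∈ Icc a b, l ≤ |v x|) :
    ‖∫ x in a..b, cexp (φ x * I)‖ ≤ 8 / √l := by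
  by_cases hpos : ∀ x ∈ Icc a b, l ≤ v x
  · exact vdcW hab hl hφ hu hv hpos
  have hneg : ∀ x ∈ Icc a b, l ≤ -v x := by
    push Not at hpos
    obtain ⟨x₀, hx₀, h0⟩ := hpos
    have hx0' : v x₀ < 0 := by
      by_contra h
      have := hvl x₀ hx₀
      rw [abs_of_nonneg (not_lt.1 h)] at this
      linarith
    intro x hx
    rcases le_or_gt (v x) 0 with h | h
    · have := hvl x hx
      rwa [abs_of_nonpos h] at this
    · exfalso
      have hc : IsPreconnected (Icc a b) := isPreconnected_Icc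
      obtain ⟨z, hz, hz0⟩ := hc.intermediate_value hx₀ hx hv ⟨hx0'.le, h.le⟩
      have := hvl z hz
      rw [hz0, abs_zero] at this
      linarith
  have h1 := vdcW (φ := fun x => -φ x) (u := fun x => -u x) (v := fun x => -v x) hab hl
    (fun x hx => (hφ x hx).neg) (fun x hx => (hu x hx).neg) hv.neg hneg
  have e : ∫ x in a..b, cexp (((-φ x : ℝ) : ℂ) * I) =
      (starRingEnd ℂ) (∫ x in a..b, cexp (φ x * I)) := by
    rw [intervalIntegral.integral_of_le hab, intervalIntegral.integral_of_le hab, ← integral_conj]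
    congr 1
    funext x
    rw [← Complex.exp_conj]
    congr 1
    rw [map_mul, Complex.conj_ofReal, Complex.conj_I]
    push_cast
    ring
  rw [e, Complex.norm_conj] at h1
  exact h1

theorem ee_norm (x : ℝ) : ‖ee x‖ = 1 := by
  unfold ee
  have : 2 * (Real.pi : ℂ) * I * (x : ℂ) = ((2 * Real.pi * x : ℝ) : ℂ) * I := by
    push_cast; ring
  rw [this, Complex.norm_exp_ofReal_mul_I]

theorem ee_add (x y : ℝ) : ee (x + y) = ee x * ee y := by
  unfold ee
  rw [← Complex.exp_add]
  congr 1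
  push_cast
  ring

theorem ee_int (h : ℤ) : ee (h : ℝ) = 1 := by
  unfold ee
  have : 2 * (Real.pi : ℂ) * I * ((h : ℝ) : ℂ) = (h : ℂ) * (2 * Real.pi * I) := by
    push_cast; ring
  rw [this, Complex.exp_int_mul_two_pi_mul_I]

theorem ee_cont : Continuous ee := by
  unfold ee
  fun_prop

theorem ee_eq (x : ℝ) : ee x = cexp (((2 * Real.pi * x : ℝ) : ℂ) * I) := by
  unfold ee
  congr 1
  push_cast
  ring

theorem t_MEAN : S_BUMP → S_MEAN := by
  intro hB ρ hρ h0 h1
  obtain ⟨C, hC, hc⟩ := hB ρ hρ h0 h1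
  refine ⟨8 * C, by positivity, ?_⟩
  intro δ lam f f1 f2 a b hδ hδ1 hlam hab hf hf1 hf2 hf2l
  obtain ⟨c, hcs, hcC, hcu⟩ := hc δ hδ hδ1
  have hab' : (a : ℝ) ≤ (b : ℝ) + 1 := by
    have : (a : ℝ) ≤ b := by exact_mod_cast hab
    linarith
  have hfc : ContinuousOn f (Icc (a : ℝ) (b + 1)) := fun x hx => (hf x hx).continuousWithinAt
  -- the function of the variable `x`
  obtain ⟨g, hg⟩ : ∃ g : ℤ → ℝ → ℂ, g = fun (h : ℤ) x => ee (f x + h * x) := ⟨_, rfl⟩
  have hgc : ∀ h, ContinuousOn (g h) (Icc (a : ℝ) (b + 1)) := by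
    intro h
    rw [hg]
    exact ee_cont.comp_continuousOn (hfc.add (continuousOn_const.mul continuousOn_id))
  have hgn : ∀ h x, ‖g h x‖ = 1 := fun h x => by
    rw [hg]
    exact ee_norm _
  -- the integrals over the unit intervals
  have hsub : ∀ n ∈ Finset.Icc a b, ∀ u ∈ Icc (0 : ℝ) 1, (n : ℝ) + u ∈ Icc (a : ℝ) (b + 1) := by
    intro n hn u hu
    have h1 : (a : ℝ) ≤ n := by exact_mod_cast (Finset.mem_Icc.1 hn).1
    have h2 : (n : ℝ) ≤ b := by exact_mod_cast (Finset.mem_Icc.1 hn).2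
    exact ⟨by linarith [hu.1], by linarith [hu.2]⟩
  have hgcn : ∀ n ∈ Finset.Icc a b, ∀ h, ContinuousOn (fun u => g h ((n : ℝ) + u)) (Icc (0 : ℝ) 1) := by
    intro n hn h
    exact (hgc h).comp (continuousOn_const.add continuousOn_id) (fun u hu => hsub n hn u hu)
  have key : ∀ n ∈ Finset.Icc a b, HasSum (fun h : ℤ => c h * ∫ u in (0 : ℝ)..1, g h ((n : ℝ) + u))
      (∫ u in (0 : ℝ)..1, ((δ⁻¹ * ρ (u / δ) : ℝ) : ℂ) * ee (f ((n : ℝ) + u))) := by
    intro n hn
    have h2 := intervalIntegral.hasSum_integral_of_dominated_convergence (μ := volume) (a := 0)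
      (b := 1) (F := fun (h : ℤ) (u : ℝ) => c h * g h ((n : ℝ) + u))
      (f := fun u : ℝ => ((δ⁻¹ * ρ (u / δ) : ℝ) : ℂ) * ee (f ((n : ℝ) + u)))
      (fun h _ => ‖c h‖) ?_ ?_ ?_ ?_ ?_
    · refine h2.congr_fun fun h => ?_
      rw [← intervalIntegral.integral_const_mul]
    · intro h
      rw [uIoc_of_le zero_le_one]
      refine (ContinuousOn.aestronglyMeasurable (s := Icc (0 : ℝ) 1) ?_
        measurableSet_Icc).mono_measure (Measure.restrict_mono Ioc_subset_Icc_self le_rfl)
      exact continuousOn_const.mul (hgcn n hn h)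
    · intro h
      refine Filter.Eventually.of_forall fun u _ => ?_
      rw [norm_mul, hgn, mul_one]
    · exact Filter.Eventually.of_forall fun _ _ => hcs
    · exact _root_.intervalIntegrable_const
    · refine Filter.Eventually.of_forall fun u hu => ?_
      rw [uIoc_of_le zero_le_one] at hu
      have hu' : u ∈ Icc (0 : ℝ) 1 := ⟨hu.1.le, hu.2⟩
      rw [hcu u hu']
      have h3 : Summable fun h : ℤ => c h * ee (h * u) := by
        refine Summable.of_norm ?_
        refine hcs.congr fun h => ?_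
        rw [norm_mul, ee_norm, mul_one]
      have h4 := h3.hasSum.mul_right (ee (f ((n : ℝ) + u)))
      refine h4.congr_fun fun h => ?_
      rw [hg, mul_assoc, ← ee_add]
      congr 1
      have h5 : f ((n : ℝ) + u) + h * ((n : ℝ) + u) =
          (((h * (n : ℤ) : ℤ) : ℝ)) + (h * u + f ((n : ℝ) + u)) := by
        push_cast
        ring
      beta_reduce
      rw [h5, ee_add, ee_int, one_mul]
  -- the sum over `n`
  have hI : ∀ h : ℤ, ∑ n ∈ Finset.Icc a b, ∫ u in (0 : ℝ)..1, g h ((n : ℝ) + u) =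
      ∫ x in (a : ℝ)..((b : ℝ) + 1), g h x := by
    intro h
    have h3 : ∀ n ∈ Finset.Icc a b, ∫ u in (0 : ℝ)..1, g h ((n : ℝ) + u) =
        ∫ x in ((n : ℕ) : ℝ)..((n + 1 : ℕ) : ℝ), g h x := by
      intro n _
      rw [intervalIntegral.integral_comp_add_left (fun x => g h x) (n : ℝ), add_zero]
      push_cast
      rfl
    rw [Finset.sum_congr rfl h3]
    have h4 := intervalIntegral.sum_integral_adjacent_intervals_Ico (f := g h) (μ := volume)
      (a := fun n : ℕ => (n : ℝ)) (m := a) (n := b + 1) (by omega) (by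
        intro n hn
        apply ContinuousOn.intervalIntegrable
        have h5 : ((n : ℕ) : ℝ) ≤ ((n + 1 : ℕ) : ℝ) := by push_cast; linarith
        rw [uIcc_of_le h5]
        refine (hgc h).mono (Icc_subset_Icc ?_ ?_)
        · exact_mod_cast hn.1
        · have : n + 1 ≤ b + 1 := hn.2
          exact_mod_cast this)
    have h6 : Finset.Icc a b = Finset.Ico a (b + 1) := by
      ext n
      simp only [Finset.mem_Icc, Finset.mem_Ico]
      omega
    rw [h6, h4]
    push_cast
    rfl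
  have hbound : ∀ h : ℤ, ‖∫ x in (a : ℝ)..((b : ℝ) + 1), g h x‖ ≤ 8 * lam ^ (-(1 / 2) : ℝ) := by
    intro h
    have h2 : ∀ x, g h x = cexp (((2 * Real.pi * (f x + h * x) : ℝ) : ℂ) * I) := fun x => by
      rw [hg]
      exact ee_eq _
    simp_rw [h2]
    have hpi : (1 : ℝ) ≤ 2 * Real.pi := by linarith [Real.pi_gt_three]
    refine (vdcA hab' hlam (u := fun x => 2 * Real.pi * (f1 x + h)) (v := fun x => 2 * Real.pi * f2 x)
      ?_ ?_ (continuousOn_const.mul hf2) ?_).trans ?_
    · intro x hx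
      have h3 : HasDerivWithinAt (fun x : ℝ => (h : ℝ) * x) (h * 1) (Icc (a : ℝ) (b + 1)) x :=
        (hasDerivWithinAt_id x _).const_mul (h : ℝ)
      have h4 := ((hf x hx).add h3).const_mul (2 * Real.pi)
      rw [mul_one] at h4
      exact h4
    · intro x hx
      exact ((hf1 x hx).add_const (h : ℝ)).const_mul (2 * Real.pi)
    · intro x hx
      rw [abs_mul, abs_of_pos (by linarith : (0 : ℝ) < 2 * Real.pi)]
      have := hf2l x hx
      nlinarith
    · rw [Real.rpow_neg hlam.le, ← Real.sqrt_eq_rpow, div_eq_mul_inv]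
  have hS := hasSum_sum key
  have hS' : HasSum (fun h : ℤ => c h * ∫ x in (a : ℝ)..((b : ℝ) + 1), g h x)
      (∑ n ∈ Finset.Icc a b, ∫ u in (0 : ℝ)..1,
        ((δ⁻¹ * ρ (u / δ) : ℝ) : ℂ) * ee (f ((n : ℝ) + u))) := by
    refine hS.congr_fun fun h => ?_
    rw [← Finset.mul_sum, hI]
  have hnorm : ∀ h : ℤ, ‖c h * ∫ x in (a : ℝ)..((b : ℝ) + 1), g h x‖ ≤
      ‖c h‖ * (8 * lam ^ (-(1 / 2) : ℝ)) := fun h => by
    rw [norm_mul]
    exact mul_le_mul_of_nonneg_left (hbound h) (norm_nonneg _)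
  have hs1 : Summable fun h : ℤ => ‖c h‖ * (8 * lam ^ (-(1 / 2) : ℝ)) := hcs.mul_right _
  rw [← hS'.tsum_eq]
  refine (tsum_of_norm_bounded hs1.hasSum hnorm).trans ?_
  rw [tsum_mul_right]
  have h9 : (0 : ℝ) ≤ 8 * lam ^ (-(1 / 2) : ℝ) := by positivity
  refine (mul_le_mul_of_nonneg_right hcC h9).trans (le_of_eq ?_)
  ring

end Pool.Agent.U981.EP.MEAN
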